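import Mathlib
import Pool.Agent.H368Z.SerreMain

open Pool.Agent.H368Z.Serre

namespace Pool.Agent.Results.MP_4b482e_nt.SerreForm

/-- There are an elliptic curve `E = ℂ / Λ` over the algebraic numbers, four nonzero algebraic
points `Q_k = exp_E (q k)` and a point `R = exp_G (p, t)` of the extension `G` of `E` by `𝔾_m^4`
they define (Serre's model, `ξ_{Q_k} = dt_k`) for which the transcendence degree of `F` over the
field of periods is smaller than `t`, hence than `2 d + t` for every natural number `d`, in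
particular for `d = dim B_Q`. -/
theorem result :
    ∃ (L : PeriodPair) (q t : Fin 4 → ℂ) (p : ℂ),
      IsAlgebraic ℚ L.g₂ ∧ IsAlgebraic ℚ L.g₃ ∧
      (∀ k, q k ∉ L.lattice ∧ IsAlgebraic ℚ (L.weierstrassP (q k)) ∧
        IsAlgebraic ℚ (L.derivWeierstrassP (q k))) ∧
      p ∉ L.lattice ∧ (∀ k, p + q k ∉ L.lattice) ∧
      ∀ d : ℕ, Algebra.trdeg (periodField L q) (pointField L q t p) <
        ((2 * d + tdim L q t : ℕ) : Cardinal) := by
  obtain ⟨L, q, t, p, h2, h3, hq, hp, hpq, hle, ht⟩ := main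
  refine ⟨L, q, t, p, h2, h3, hq, hp, hpq, fun d => hle.trans_lt ?_⟩
  rw [ht]
  exact_mod_cast (by omega : 3 < 2 * d + 4)

end Pool.Agent.Results.MP_4b482e_nt.SerreForm
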